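import Pool.Agent.W5h13.LS.E3

set_option autoImplicit false

open scoped Manifold ContDiff Topology
open Set Filter

namespace Pool.Agent.Results.MP_610fe3_an.FoliationSymmetries

open Pool.Agent.H721R2 Pool.Agent.H789R2.AN Pool.Agent.TH289 Pool.Agent.W5h13.LS

/-- **Transitivity of Anosov diffeomorphisms from the symmetries of their unstable foliations.**
Let `M` be a closed connected smooth manifold and let `f i` (`i` in a nonempty index set; the case of
a single diffeomorphism is already of interest) be `C¹` Anosov diffeomorphisms of `M` with splittings
`TM = Es i ⊕ Eu i`.  Join `i` and `j` by an edge when `Eu i ⊆ Eu j` and the derivative of `f j`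
preserves the fields `Es i` and `Eu i`; it is not assumed that `f i` and `f j` commute.  Suppose that
the resulting graph is connected.

(1) For every `i` there are only finitely many closed sets that are unions of unstable leaves of
`f i` (so the space of unstable leaves, with the quotient topology, has only finitely many open
sets), and these sets are the same for all `i`.

(2) The following are equivalent; no relation between the `f i` and the maps in (f), (g) is assumed
besides the one stated.
 (a) Every `f i` is topologically transitive.
 (b) Some `f i` is topologically transitive.
 (c) All unstable leaves of all `f i` are dense.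
 (d) For some `i` the points whose unstable leaf has a minimal closure (`MinLeaf (f i).symm x`: every
     leaf in the closure is dense in it) fill a set with nonempty interior; for instance the closures
     of the unstable leaves of `f i` form a partition of `M`.
 (e) For some `i`, `j` a minimal set of the unstable foliation of `f i` meets a minimal set of the
     stable foliation of `f j`; for instance some homeomorphism of `M` exchanges the two foliations
     of `f i` and has a fixed point in a minimal set.
 (f) For some `i` the space of unstable leaves of `f i` is homogeneous (its homeomorphisms act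
     transitively).
 (g) There are a set `Γ` of continuous maps `γ : M → M`, each of which maps the unstable leaves of
     some `f i` into unstable leaves of some `f j` and whose image meets every unstable leaf of
     `f j`, and a set `Φ` of homeomorphisms of `M`, each of which permutes the stable leaves and
     permutes the unstable leaves of some `f i` and contracts the latter, with this property: each
     nonempty closed set `A` which is a union of unstable leaves of every `f i`, is mapped into
     itself by every `γ` in `Γ` and is saturated by the stable sets of every `φ` in `Φ` has
     nonempty interior or contains a point `x` such that the spaces `Eu i x` together span the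
     tangent space at `x`.
For instance the `f i` are transitive if the bundles `Eu i` together span `TM` (so any family of
Anosov diffeomorphisms that preserve a common splitting of `TM` into subbundles, commuting or not,
with all `Es i` and `Eu i` sums of some of these, when the `Eu i` are linked by inclusions and span
`TM`), and an Anosov diffeomorphism `f` is transitive if its unstable foliation is preserved by a
minimal group action on `M` unrelated to `f`. -/
theorem result (E : Type*) [NormedAddCommGroup E] [NormedSpace ℝ E] [FiniteDimensional ℝ E]
    (M : Type*) [TopologicalSpace M] [T2Space M] [CompactSpace M] [ConnectedSpace M]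
    [ChartedSpace E M] [IsManifold 𝓘(ℝ, E) ∞ M]
    (ι : Type*) [Nonempty ι] (f : ι → Diffeomorph 𝓘(ℝ, E) 𝓘(ℝ, E) M M 1)
    (Es Eu : ι → ∀ x : M, Submodule ℝ (TangentSpace 𝓘(ℝ, E) x))
    (hA : ∀ i, IsAnosov (f i) (Es i) (Eu i))
    (hlink : ∀ i j, Relation.EqvGen (fun i j => (∀ x, Eu i x ≤ Eu j x) ∧
      InvariantField (f j) (Es i) ∧ InvariantField (f j) (Eu i)) i j) :
    (∀ i, {A : Set M | ClosedLeafUnion (f i).symm A}.Finite) ∧
    (∀ i j (A : Set M), ClosedLeafUnion (f i).symm A → ClosedLeafUnion (f j).symm A) ∧
    [∀ i, TopTransitive (f i),
      ∃ i, TopTransitive (f i),
      ∀ i x, Dense (Leaf (f i).symm x),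
      ∃ i, (interior {x | MinLeaf (f i).symm x}).Nonempty,
      ∃ i j x, MinLeaf (f i).symm x ∧ MinLeaf (f j) x,
      ∃ i, ∀ q r : LeafSpace (f i).symm,
        ∃ φ : LeafSpace (f i).symm ≃ₜ LeafSpace (f i).symm, φ q = r,
      ∃ (Γ : Set (M → M)) (Φ : Set (M ≃ₜ M)),
        (∀ γ ∈ Γ, ∃ i j, LeafMap (f i).symm (f j).symm γ) ∧
        (∀ φ ∈ Φ, ∃ i, Contracts (f i).toHomeomorph φ) ∧
        ∀ A : Set M, A.Nonempty → (∀ i, ClosedLeafUnion (f i).symm A) → (∀ γ ∈ Γ, MapsTo γ A A) →
          (∀ φ ∈ Φ, ∀ x ∈ A, Leaf φ x ⊆ A) →
          (interior A).Nonempty ∨ ∃ x ∈ A, ⨆ i, Eu i x = ⊤].TFAE :=
  man_family f Es Eu hA hlink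

end Pool.Agent.Results.MP_610fe3_an.FoliationSymmetries
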