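import Pool.Agent.W5h42.GS.Man

set_option autoImplicit false

open scoped Manifold ContDiff Topology
open Set Filter MeasureTheory

namespace Pool.Agent.Results.MP_610fe3_an.GibbsStates

open Pool.Agent.H721R2 Pool.Agent.H789R2.AN Pool.Agent.W5h70.AJ Pool.Agent.W5h42.GS

/-- **Gibbs states and transitivity of Anosov diffeomorphisms.**
Let `f` be a `C¹` Anosov diffeomorphism of a closed connected smooth manifold `M`.  A conjugating map
of `f` is a continuous injective map `χ` on an open set `O` such that the orbits of `z` and of `χ z`
approach each other in the past and in the future, uniformly for `z ∈ O` (`IsConjugating`).  A finite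
Borel measure `μ` on `M` satisfies the Gibbs inequality (`IsGibbs f φ C μ`) for the potential `φ`
and the constant `C` if `exp s * μ O ≤ C * μ (χ O)` for every conjugating map `χ` on `O` and every
real `s` such that the sums of `φ (fⁿ (χ z)) - φ (fⁿ z)` over `-N ≤ n < N` are at least `s`
for large `N`, for every `z ∈ O`.  Gibbs states in the sense of Capocaccia satisfy it with `C = 1`;
neither invariance under `f` nor a product structure of `μ` is assumed.

If `f` is not topologically transitive, then there is one open dense `f`-invariant set `U` which is a
null set for all these measures `μ`, for all constants `C` and all continuous potentials `φ` which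
are Hölder continuous or, more generally, have Bowen's property.

So `f` is topologically transitive as soon as the support of one such measure has an interior point,
for instance if one such measure is positive on nonempty open sets. -/
theorem result (E : Type*) [NormedAddCommGroup E] [NormedSpace ℝ E] [FiniteDimensional ℝ E]
    (M : Type*) [TopologicalSpace M] [T2Space M] [CompactSpace M] [ConnectedSpace M]
    [ChartedSpace E M] [IsManifold 𝓘(ℝ, E) ∞ M] [MeasurableSpace M] [BorelSpace M]
    (f : Diffeomorph 𝓘(ℝ, E) 𝓘(ℝ, E) M M 1)
    (Es Eu : ∀ x : M, Submodule ℝ (TangentSpace 𝓘(ℝ, E) x)) (hA : IsAnosov f Es Eu) :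
    TopTransitive f ∨ ∃ U : Set M, IsOpen U ∧ Dense U ∧ f ⁻¹' U = U ∧
      ∀ (φ : M → ℝ) (C : ℝ) (μ : Measure M), IsFiniteMeasure μ → Continuous φ →
        (HolderInCharts E φ ∨ BowenProperty f φ) → IsGibbs f.toHomeomorph φ C μ → μ U = 0 := by
  by_cases h : TopTransitive f
  · exact Or.inl h
  · exact Or.inr (final f Es Eu hA h)

end Pool.Agent.Results.MP_610fe3_an.GibbsStates
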