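import Pool.Agent.W5h70.AJ.Main

set_option autoImplicit false

open scoped Manifold ContDiff Topology Bundle
open Set Filter MeasureTheory

namespace Pool.Agent.Results.MP_610fe3_an.PeriodicJacobians

open Pool.Agent.H721R2 Pool.Agent.H789R2.AN Pool.Agent.W5h70.AJ

/-- **Periodic Jacobians of a non-transitive Anosov diffeomorphism.**
Let `f` be a `C¹` Anosov diffeomorphism of a closed connected smooth manifold `M`.  Let `s n p` be

* either `log |det D_p fⁿ|`, where `f` is supposed to be of class `C²`, or only to have a locally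
  Hölder Jacobian determinant in charts (`HolderJacobian`),
* or `φ p + φ (f p) + ... + φ (fⁿ⁻¹ p)`, where `φ` is a Hölder continuous logarithmic Jacobian of
  `f` for some finite Borel measure `μ` which is positive on nonempty open sets
  (`μ (f B) = ∫_B exp φ dμ`); `f` need not be more than `C¹` here.

If `f` is not topologically transitive, then there are periodic points `p = fⁿ p` and `q = fᵐ q` with
`s n p < 0 < s m q`.  More precisely, every nonempty open `U ≠ M` with `closure (f U) ⊆ U` contains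
a point `p` of the first kind, and every nonempty open `U ≠ M` with `closure (f⁻¹ U) ⊆ U` contains a
point `q` of the second kind. -/
theorem result (E : Type*) [NormedAddCommGroup E] [NormedSpace ℝ E] [FiniteDimensional ℝ E]
    (M : Type*) [TopologicalSpace M] [T2Space M] [CompactSpace M] [ConnectedSpace M]
    [ChartedSpace E M] [IsManifold 𝓘(ℝ, E) ∞ M] (f : Diffeomorph 𝓘(ℝ, E) 𝓘(ℝ, E) M M 1)
    (Es Eu : ∀ x : M, Submodule ℝ (TangentSpace 𝓘(ℝ, E) x)) (hA : IsAnosov f Es Eu)
    (s : ℕ → M → ℝ)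
    (hs : ((ContMDiff 𝓘(ℝ, E) 𝓘(ℝ, E) 2 f ∨ HolderJacobian E f) ∧
        ∀ n p, s n p = Real.log (absDet E f n p)) ∨
      ∃ φ : M → ℝ, HolderInCharts E φ ∧ IsLogJacobian f φ ∧
        ∀ n p, s n p = ∑ k ∈ Finset.range n, φ (f^[k] p)) :
    (¬ TopTransitive f → (∃ n p, 0 < n ∧ f^[n] p = p ∧ s n p < 0) ∧
      ∃ n p, 0 < n ∧ f^[n] p = p ∧ 0 < s n p) ∧
    (∀ U : Set M, IsOpen U → U.Nonempty → U ≠ univ →
      (closure (f '' U) ⊆ U → ∃ n, ∃ p ∈ U, 0 < n ∧ f^[n] p = p ∧ s n p < 0) ∧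
      (closure (f ⁻¹' U) ⊆ U → ∃ n, ∃ p ∈ U, 0 < n ∧ f^[n] p = p ∧ 0 < s n p)) := by
  rcases hs with ⟨hf, hs⟩ | ⟨φ, hφ, ⟨m, hm, μ, hfin, hpos, hμ⟩, hs⟩
  · simp only [hs]
    exact final_jac_log f hf Es Eu hA
  · simp only [hs]
    exact final_meas f Es Eu hA μ hpos φ hφ hμ

end Pool.Agent.Results.MP_610fe3_an.PeriodicJacobians
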