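import Pool.Agent.W5h91.GG.Man

set_option autoImplicit false

open scoped Manifold ContDiff Topology
open Set Filter

namespace Pool.Agent.Results.MP_610fe3_an.QuadraticGap

open Pool.Agent.H721R2 Pool.Agent.H789R2.AN

/-- The growth at the point `x` of the local unstable sets of `g`: the largest number of points `y` with
`d(g⁻ᵏ x, g⁻ᵏ y) ≤ ε` for all `k ≥ 0` that are pairwise `δ`-separated by `g⁰, …, gⁿ`.
(For `g.symm` this is the growth of the local stable sets of `g` under `g⁻¹`.) -/
noncomputable def growth {M : Type*} [MetricSpace M] (g : M ≃ₜ M) (ε δ : ℝ) (n : ℕ) (x : M) : ℕ :=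
  sSup {m | ∃ F : Finset M, (∀ y ∈ F, ∀ k : ℕ, dist (g.symm^[k] x) (g.symm^[k] y) ≤ ε) ∧
    (∀ y ∈ F, ∀ z ∈ F, y ≠ z → ∃ k ≤ n, δ < dist (g^[k] y) (g^[k] z)) ∧ F.card = m}

/-- **A quadratic gap for the growth of the leaves of Anosov diffeomorphisms that are not transitive.**
Let `f` be a `C¹` Anosov diffeomorphism of a closed connected manifold `M` with a metric, and let
`U n x = growth f ε δ n x` and `S n x = growth f⁻¹ ε δ n x` be the growths of the local unstable and
stable sets, for small `ε` and `δ`.

* If `f` is topologically transitive, then all the numbers `U n x` and `S n y` for the same `n` agree up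
  to a bounded factor.
* If `f` is not topologically transitive, then there are periodic points `a`, `b` with
  `U n b * S n a ≥ const * n² * U n a * S n b` for all `n`.

So `f` is transitive if and only if `U n b * S n a = o(n²) * U n a * S n b`, along some sequence of
numbers `n`, for all periodic points `a` and `b`; for instance if the quotients `U n b / U n a` and
`S n a / S n b` are `o(n)` for all periodic points, or if the quotients `U n a / S n a` and
`S n a / U n a` are `o(n)`.  -/
theorem result (E : Type*) [NormedAddCommGroup E] [NormedSpace ℝ E] [FiniteDimensional ℝ E]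
    (M : Type*) [MetricSpace M] [CompactSpace M] [ConnectedSpace M]
    [ChartedSpace E M] [IsManifold 𝓘(ℝ, E) ∞ M] (f : Diffeomorph 𝓘(ℝ, E) 𝓘(ℝ, E) M M 1)
    (Es Eu : ∀ x : M, Submodule ℝ (TangentSpace 𝓘(ℝ, E) x)) (hf : IsAnosov f Es Eu) :
    ∃ r > 0,
      (TopTransitive f → ∀ ε > 0, ε ≤ r → ∀ δ > 0, δ ≤ r → ∃ C : ℕ, ∀ n x y,
        growth f.toHomeomorph ε δ n x ≤ C * growth f.toHomeomorph ε δ n y ∧
        growth f.toHomeomorph ε δ n x ≤ C * growth f.toHomeomorph.symm ε δ n y ∧
        growth f.toHomeomorph.symm ε δ n x ≤ C * growth f.toHomeomorph ε δ n y ∧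
        growth f.toHomeomorph.symm ε δ n x ≤ C * growth f.toHomeomorph.symm ε δ n y) ∧
      (¬ TopTransitive f → ∃ a ∈ Function.periodicPts f, ∃ b ∈ Function.periodicPts f,
        ∀ ε > 0, ε ≤ r → ∀ δ > 0, δ ≤ r → ∃ C : ℕ, ∀ n,
        n ^ 2 * (growth f.toHomeomorph ε δ n a * growth f.toHomeomorph.symm ε δ n b) ≤
          C * (growth f.toHomeomorph ε δ n b * growth f.toHomeomorph.symm ε δ n a)) := by
  have key : ∀ (g : M ≃ₜ M) (ε δ : ℝ) (n : ℕ) (x : M),
      growth g ε δ n x = Pool.Agent.Y330.G.P g ε δ n x := by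
    intro g ε δ n x
    unfold growth Pool.Agent.Y330.G.P Pool.Agent.Y330.G.Val
    simp only [and_assoc]
    rfl
  simp only [key]
  exact Pool.Agent.W5h91.GG.man_gap f Es Eu hf

end Pool.Agent.Results.MP_610fe3_an.QuadraticGap
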